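import Mathlib
import Pool.Agent.Helper5.RI.Final
import Pool.Agent.Helper81.WT.All

set_option autoImplicit false

namespace Pool.Agent.Helper81.Old.DegreeBound

/-- For every field `K`, every polymatroidal set `G` of exponent vectors of degree `d` in `n`
variables and every `J ≥ 2` with `min d ⌊n / 2⌋ ≤ J + 2`, the Rees ideal, that is, the kernel of
`x_i ↦ x_i`, `y_u ↦ x^u t`, is generated by its elements of bidegrees `(1,1)` and `(0,j)`,
`2 ≤ j ≤ J`. -/
theorem result :
    ∀ (K : Type) [Field K] (n d J : ℕ), 2 ≤ J → min d (n / 2) ≤ J + 2 →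
      ∀ (G : Finset (Fin n → ℕ)),
      (∀ u ∈ G, ∑ i, u i = d) →
      (∀ u ∈ G, ∀ v ∈ G, ∀ i : Fin n, v i < u i →
        ∃ j : Fin n, u j < v j ∧ (u - Pi.single i 1 + Pi.single j 1) ∈ G) →
      RingHom.ker (MvPolynomial.aeval (R := K)
          (Sum.elim (fun i : Fin n => (MvPolynomial.X (some i) : MvPolynomial (Option (Fin n)) K))
            (fun u : ↥G => (∏ i : Fin n, (MvPolynomial.X (some i) :
              MvPolynomial (Option (Fin n)) K) ^ (u.1 i)) * MvPolynomial.X none))) =
        Ideal.span {p : MvPolynomial (Fin n ⊕ ↥G) K |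
          p ∈ RingHom.ker (MvPolynomial.aeval (R := K)
            (Sum.elim (fun i : Fin n => (MvPolynomial.X (some i) :
              MvPolynomial (Option (Fin n)) K))
              (fun u : ↥G => (∏ i : Fin n, (MvPolynomial.X (some i) :
                MvPolynomial (Option (Fin n)) K) ^ (u.1 i)) * MvPolynomial.X none))) ∧
          (MvPolynomial.IsWeightedHomogeneous
              (Sum.elim (fun _ : Fin n => ((1 : ℕ), (0 : ℕ)))
                (fun _ : ↥G => ((0 : ℕ), (1 : ℕ)))) p ((1 : ℕ), (1 : ℕ)) ∨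
            ∃ j : ℕ, 2 ≤ j ∧ j ≤ J ∧ MvPolynomial.IsWeightedHomogeneous
              (Sum.elim (fun _ : Fin n => ((1 : ℕ), (0 : ℕ)))
                (fun _ : ↥G => ((0 : ℕ), (1 : ℕ)))) p ((0 : ℕ), j))} :=
  Pool.Agent.Helper5.RI.finalJ Pool.Agent.Helper81.WT.a_FIN

end Pool.Agent.Helper81.Old.DegreeBound
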